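import Pool.Agent.helper70.RK.Spec

/-! Row DRG of project rk (MP_e82547_al) -/

set_option autoImplicit false

namespace RK

open QS (Lef EAb)
open LEQ (Stb Nz XS Ls Mb FS mem_FS)

/-- a transitive action on at least two points has an element without fixed points -/
theorem DRG_der {G X : Type} [Group G] [MulAction G X] [Finite G] [Finite X] [MulAction.IsPretransitive G X]
    (h : 2 ≤ Nat.card X) : ∃ g : G, ∀ x : X, g • x ≠ x := by
  classical
  by_contra hcon
  push Not at hcon
  have := Fintype.ofFinite G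
  have := Fintype.ofFinite X
  have hb := MulAction.sum_card_fixedBy_eq_card_orbits_mul_card_group G X
  have h0 : Nonempty X := by
    rcases isEmpty_or_nonempty X with h1 | h1
    · rw [Nat.card_of_isEmpty] at h
      omega
    · exact h1
  have h1 : Fintype.card (Quotient (MulAction.orbitRel G X)) = 1 := by
    rw [Fintype.card_eq_one_iff]
    obtain ⟨x0⟩ := h0
    refine ⟨Quotient.mk _ x0, ?_⟩
    intro y
    induction y using Quotient.inductionOn with
    | h y =>
      apply Quotient.sound
      obtain ⟨g, hg⟩ := MulAction.exists_smul_eq G x0 y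
      exact ⟨g, hg⟩
  rw [h1, one_mul, ← Finset.add_sum_erase _ _ (Finset.mem_univ (1 : G))] at hb
  have h2 : ∑ g ∈ Finset.univ.erase (1 : G), 1 ≤
      ∑ g ∈ Finset.univ.erase (1 : G), Fintype.card (MulAction.fixedBy X g) := by
    apply Finset.sum_le_sum
    intro g _
    obtain ⟨x, hx⟩ := hcon g
    exact Fintype.card_pos_iff.2 ⟨⟨x, hx⟩⟩
  rw [Finset.sum_const, Finset.card_erase_of_mem (Finset.mem_univ _), Finset.card_univ, smul_eq_mul,
    mul_one] at h2
  have h3 : ∀ F : Fintype (MulAction.fixedBy X (1 : G)),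
      @Fintype.card (MulAction.fixedBy X (1 : G)) F = Fintype.card X := by
    intro F
    exact @Fintype.card_congr _ _ F _ ⟨fun y => y.1, fun y => ⟨y, one_smul _ _⟩, fun _ => rfl,
      fun _ => rfl⟩
  rw [h3] at hb
  rw [Nat.card_eq_fintype_card] at h
  have hpos : 0 < Fintype.card G := Fintype.card_pos
  omega

/-- all subgroups of order `p` of a `p`-subgroup `Q` agree when the elementary abelian subgroups have order at most `p` -/
theorem DRG_uni {H : Type} [Group H] [Finite H] {p : ℕ} (hp : p.Prime)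
    (hr : ∀ E : Subgroup H, EAb p E → Nat.card E ≤ p) (Q : Subgroup H) (hQ : IsPGroup p Q) :
    ∀ A B : Subgroup H, A ≤ Q → B ≤ Q → Nat.card A = p → Nat.card B = p → A = B := by
  classical
  intro A B hA hB hcA hcB
  have : Fact p.Prime := ⟨hp⟩
  have hnt : Nontrivial Q := by
    rw [Subgroup.nontrivial_iff_exists_ne_one]
    have h1 : Nontrivial A := by
      rw [← Finite.one_lt_card_iff_nontrivial, hcA]
      exact hp.one_lt
    rw [Subgroup.nontrivial_iff_exists_ne_one] at h1
    obtain ⟨x, hx, hx1⟩ := h1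
    exact ⟨x, hA hx, hx1⟩
  have hc : Nontrivial (Subgroup.center Q) := hQ.center_nontrivial
  have hcp : IsPGroup p (Subgroup.center Q) := hQ.to_subgroup _
  have hd : p ∣ Nat.card (Subgroup.center Q) := by
    obtain ⟨n, hn⟩ := IsPGroup.iff_card.1 hcp
    rw [hn]
    apply dvd_pow_self
    intro h0
    rw [h0, pow_zero] at hn
    have := Finite.one_lt_card_iff_nontrivial.2 hc
    omega
  obtain ⟨⟨⟨z, hz⟩, hzc⟩, hzo⟩ := exists_prime_orderOf_dvd_card' p hd
  have hzo' : orderOf z = p := by
    rw [← hzo, Subgroup.orderOf_mk, Subgroup.orderOf_mk]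
  have hzcomm : ∀ x ∈ Q, z * x = x * z := by
    intro x hx
    have h1 := Subgroup.mem_center_iff.1 hzc ⟨x, hx⟩
    have h2 := congrArg Subtype.val h1
    exact h2.symm
  have key : ∀ C : Subgroup H, C ≤ Q → Nat.card C = p → Subgroup.zpowers z = C := by
    intro C hC hcC
    have hpow : ∀ x ∈ C, x ^ p = 1 := by
      intro x hx
      have h1 : (⟨x, hx⟩ : C) ^ Nat.card C = 1 := pow_card_eq_one'
      rw [hcC] at h1
      exact congrArg Subtype.val h1
    have hcyc : IsCyclic C := isCyclic_of_prime_card hcC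
    have hcom : ∀ x ∈ C, ∀ y ∈ C, x * y = y * x := by
      intro x hx y hy
      have h1 := (IsCyclic.isMulCommutative (α := C)).is_comm.comm ⟨x, hx⟩ ⟨y, hy⟩
      exact congrArg Subtype.val h1
    have hzz : ∀ w ∈ Subgroup.zpowers z, ∀ x ∈ Q, w * x = x * w := by
      intro w hw x hx
      obtain ⟨k, hk⟩ := Subgroup.mem_zpowers_iff.1 hw
      rw [← hk]
      exact ((show Commute z x from hzcomm x hx).zpow_left k).eq
    have hzQ : Subgroup.zpowers z ≤ Q := by
      rw [Subgroup.zpowers_le]
      exact hz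
    have hE : EAb p (C ⊔ Subgroup.zpowers z) := by
      have hmem : ∀ x ∈ C ⊔ Subgroup.zpowers z, ∃ c ∈ C, ∃ w ∈ Subgroup.zpowers z, x = c * w := by
        intro x hx
        let T : Subgroup H :=
          { carrier := {x | ∃ c ∈ C, ∃ w ∈ Subgroup.zpowers z, x = c * w}
            mul_mem' := by
              rintro a b ⟨c, hc, w, hw, rfl⟩ ⟨c', hc', w', hw', rfl⟩
              refine ⟨c * c', C.mul_mem hc hc', w * w', Subgroup.mul_mem _ hw hw', ?_⟩
              have h1 := hzz w hw c' (hC hc')
              calc c * w * (c' * w') = c * (w * c') * w' := by group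
                _ = c * (c' * w) * w' := by rw [h1]
                _ = c * c' * (w * w') := by group
            one_mem' := ⟨1, C.one_mem, 1, Subgroup.one_mem _, by simp⟩
            inv_mem' := by
              rintro a ⟨c, hc, w, hw, rfl⟩
              refine ⟨c⁻¹, C.inv_mem hc, w⁻¹, Subgroup.inv_mem _ hw, ?_⟩
              have h1 := hzz w hw c (hC hc)
              rw [← h1]
              group }
        have hT : C ⊔ Subgroup.zpowers z ≤ T := by
          apply sup_le
          · intro c hc
            exact ⟨c, hc, 1, Subgroup.one_mem _, by simp⟩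
          · intro w hw
            exact ⟨1, C.one_mem, w, hw, by simp⟩
        exact hT hx
      refine ⟨?_, ?_⟩
      · intro x hx y hy
        obtain ⟨c, hc, w, hw, rfl⟩ := hmem x hx
        obtain ⟨c', hc', w', hw', rfl⟩ := hmem y hy
        have h1 := hzz w hw c' (hC hc')
        have h2 := hzz w' hw' c (hC hc)
        have h3 := hzz w hw w' (hzQ hw')
        have h4 := hcom c hc c' hc'
        calc c * w * (c' * w') = c * (w * c') * w' := by group
          _ = c * (c' * w) * w' := by rw [h1]
          _ = (c * c') * (w * w') := by group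
          _ = (c' * c) * (w' * w) := by rw [h3, h4]
          _ = c' * (c * w') * w := by group
          _ = c' * (w' * c) * w := by rw [h2]
          _ = c' * w' * (c * w) := by group
      · intro x hx
        obtain ⟨c, hc, w, hw, rfl⟩ := hmem x hx
        have h1 : Commute c w := (hzz w hw c (hC hc)).symm
        rw [h1.mul_pow, hpow c hc, one_mul]
        obtain ⟨k, hk⟩ := Subgroup.mem_zpowers_iff.1 hw
        rw [← hk, ← zpow_natCast, ← zpow_mul, mul_comm, zpow_mul, zpow_natCast, ← hzo', pow_orderOf_eq_one,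
          one_zpow]
    have h1 := hr _ hE
    have h2 : C = C ⊔ Subgroup.zpowers z := by
      apply Subgroup.eq_of_le_of_card_ge le_sup_left
      rw [hcC]
      exact h1
    have h3 : Subgroup.zpowers z ≤ C := by
      rw [h2]
      exact le_sup_right
    apply Subgroup.eq_of_le_of_card_ge h3
    rw [hcC, Nat.card_zpowers, hzo']
  rw [← key A hA hcA, ← key B hB hcB]

theorem DRG_top {H : Type} [Group H] [Finite H] {p : ℕ} (hp : p.Prime)
    (hr : ∀ E : Subgroup H, EAb p E → Nat.card E ≤ p) (hd : p ∣ Nat.card H)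
    (ho : ∀ P : Subgroup H, P.Normal → IsPGroup p P → P = ⊥) :
    ∃ u : H, ∀ E : Subgroup H, EAb p E → (∀ x : H, x ∈ E ↔ u * x * u⁻¹ ∈ E) → E = ⊥ := by
  classical
  have : Fact p.Prime := ⟨hp⟩
  obtain ⟨a, ha⟩ := exists_prime_orderOf_dvd_card' p hd
  open scoped Pointwise in
  let A : Subgroup H := Subgroup.zpowers a
  have hA : Nat.card A = p := by
    rw [Nat.card_zpowers, ha]
  have hpg : ∀ B : Subgroup H, Nat.card B = p → IsPGroup p B := by
    intro B hB
    apply IsPGroup.of_card (n := 1)
    rw [hB, pow_one]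
  open scoped Pointwise in
  have hconj : ∀ B : Subgroup H, Nat.card B = p → ∃ g : ConjAct H, g • A = B := by
    intro B hB
    obtain ⟨P, hP⟩ := (hpg A hA).exists_le_sylow
    obtain ⟨Q, hQ⟩ := (hpg B hB).exists_le_sylow
    obtain ⟨g, hg⟩ := MulAction.exists_smul_eq H P Q
    refine ⟨ConjAct.toConjAct g, ?_⟩
    apply DRG_uni hp hr Q.1 Q.2
    · rintro x ⟨y, hy, rfl⟩
      have h1 : (g • P : Sylow p H) = Q := hg
      rw [← h1]
      exact Set.smul_mem_smul_set (a := MulAut.conj g) (hP hy)
    · exact hQ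
    · rw [← hA]
      exact Nat.card_congr (Subgroup.equivSMul (ConjAct.toConjAct g) A).toEquiv.symm
    · exact hB
  open scoped Pointwise in
  have h2 : 2 ≤ Nat.card (MulAction.orbit (ConjAct H) A) := by
    by_contra hlt
    have h3 : A.Normal := by
      refine ⟨?_⟩
      intro n hn g
      have h4 : Nat.card (MulAction.orbit (ConjAct H) A) ≤ 1 := by omega
      have h5 := Finite.card_le_one_iff_subsingleton.1 h4
      have h6 : (⟨ConjAct.toConjAct g • A, MulAction.mem_orbit _ _⟩ : MulAction.orbit (ConjAct H) A) =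
        ⟨A, MulAction.mem_orbit_self A⟩ := Subsingleton.elim _ _
      have h7 : ConjAct.toConjAct g • A = A := congrArg Subtype.val h6
      rw [← h7]
      have h8 := Subgroup.smul_mem_pointwise_smul n (ConjAct.toConjAct g) A hn
      rw [ConjAct.toConjAct_smul] at h8
      exact h8
    have h4 := ho A h3 (hpg A hA)
    rw [h4, Subgroup.card_bot] at hA
    exact hp.one_lt.ne hA
  have hfin0 : Finite (ConjAct H) := inferInstanceAs (Finite H)
  open scoped Pointwise in
  have hfin : Finite (MulAction.orbit (ConjAct H) A) := inferInstance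
  open scoped Pointwise in
  obtain ⟨g, hg⟩ := DRG_der (G := ConjAct H) h2
  refine ⟨ConjAct.ofConjAct g, ?_⟩
  intro E hE hst
  by_contra hne
  have hcE : Nat.card E = p := by
    apply le_antisymm (hr E hE)
    have hnt : Nontrivial E := (Subgroup.nontrivial_iff_ne_bot E).2 hne
    obtain ⟨x, hx, hx1⟩ := (Subgroup.nontrivial_iff_exists_ne_one E).1 hnt
    have h5 : orderOf x = p := orderOf_eq_prime (hE.2 x hx) hx1
    have h6 : Subgroup.zpowers x ≤ E := by
      rw [Subgroup.zpowers_le]
      exact hx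
    have h7 := Subgroup.card_le_of_le h6
    rw [Nat.card_zpowers, h5] at h7
    exact h7
  obtain ⟨k, hk⟩ := hconj E hcE
  open scoped Pointwise in
  have h8 : E ∈ MulAction.orbit (ConjAct H) A := ⟨k, hk⟩
  apply hg ⟨E, h8⟩
  apply Subtype.ext
  open scoped Pointwise in
  change g • E = E
  ext x
  rw [Subgroup.mem_pointwise_smul_iff_inv_smul_mem, hst (g⁻¹ • x), ConjAct.smul_def]
  have h9 : ConjAct.ofConjAct g * (ConjAct.ofConjAct g⁻¹ * x * (ConjAct.ofConjAct g⁻¹)⁻¹) *
      (ConjAct.ofConjAct g)⁻¹ = x := by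
    rw [ConjAct.ofConjAct_inv]
    group
  rw [h9]

theorem DRG : DRG_stmt := by
  intro G _ _ p hp D hrk hd ho
  have h1 : ∀ E : Subgroup D, EAb p E → Nat.card E ≤ p := by
    intro E hE
    have h2 := hrk (E.map D.subtype) ?_ ?_
    · rw [pow_one, Subgroup.card_map_of_injective D.subtype_injective] at h2
      exact h2
    · rintro x ⟨y, _, rfl⟩
      exact y.2
    · refine ⟨?_, ?_⟩
      · rintro x ⟨a, ha, rfl⟩ y ⟨b, hb, rfl⟩
        rw [← map_mul, hE.1 a ha b hb, map_mul]
      · rintro x ⟨a, ha, rfl⟩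
        rw [← map_pow, hE.2 a ha, map_one]
  have h2 : ∀ P : Subgroup D, P.Normal → IsPGroup p P → P = ⊥ := by
    intro P hP hPp
    have h3 := ho (P.map D.subtype) ?_ ?_ ?_
    · exact (Subgroup.map_eq_bot_iff_of_injective _ D.subtype_injective).1 h3
    · rintro x ⟨y, _, rfl⟩
      exact y.2
    · rintro h hh x ⟨y, hy, rfl⟩
      exact ⟨⟨h, hh⟩ * y * ⟨h, hh⟩⁻¹, hP.conj_mem y hy ⟨h, hh⟩, by simp⟩
    · exact hPp.map _
  obtain ⟨u, hu⟩ := DRG_top hp h1 hd h2
  refine ⟨u.1, u.2, ?_⟩
  intro E hED hE hst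
  have h3 := hu (E.subgroupOf D) ?_ ?_
  · rw [Subgroup.subgroupOf_eq_bot] at h3
    rw [eq_bot_iff]
    intro x hx
    exact h3.le_bot ⟨hx, hED hx⟩
  · refine ⟨?_, ?_⟩
    · intro x hx y hy
      apply Subtype.ext
      exact hE.1 x.1 hx y.1 hy
    · intro x hx
      apply Subtype.ext
      exact hE.2 x.1 hx
  · intro x
    exact hst x.1

end RK
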