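import Pool.Agent.helper70.RK.Spec

/-! Row HYQ of project rk (MP_e82547_al) -/

set_option autoImplicit false

namespace RK

open QS (Lef EAb)
open LEQ (Stb Nz XS Ls Mb FS mem_FS)

theorem HYQ_card {G H : Type} [Group G] [Finite G] [Group H] (V : Subgroup G) [V.Normal]
    (φ : G ⧸ V →* H) : Nat.card (φ.comp (QuotientGroup.mk' V)).ker = Nat.card V * Nat.card φ.ker := by
  have h1 : (φ.comp (QuotientGroup.mk' V)).ker = φ.ker.comap (QuotientGroup.mk' V) := by
    rw [MonoidHom.comap_ker]
  rw [h1]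
  have h2 := Subgroup.card_mul_index (φ.ker.comap (QuotientGroup.mk' V))
  rw [Subgroup.index_comap_of_surjective _ (QuotientGroup.mk'_surjective V)] at h2
  have h3 := Subgroup.card_mul_index φ.ker
  have h4 := Subgroup.card_eq_card_quotient_mul_card_subgroup V
  have h5 : φ.ker.index ≠ 0 := Subgroup.index_ne_zero_of_finite
  apply Nat.eq_of_mul_eq_mul_right (Nat.pos_of_ne_zero h5)
  rw [h2, h4, ← h3]
  ring

theorem HYQ : HYQ_stmt := by
  intro G _ _ p hp V _ hV
  refine ⟨?_, ?_⟩
  · intro h H _ _ φ hφ hk S hS hNS hpS hc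
    refine h H (φ.comp (QuotientGroup.mk' V)) (hφ.comp (QuotientGroup.mk'_surjective V)) ?_ S hS hNS hpS hc
    rw [HYQ_card]
    intro hd
    rcases (Nat.Prime.dvd_mul hp).1 hd with h3 | h3
    · exact hV h3
    · exact hk h3
  · intro h H _ _ φ hφ L hL hpL
    exact h H (φ.comp (QuotientGroup.mk' V)) (hφ.comp (QuotientGroup.mk'_surjective V)) L hL hpL

end RK
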